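import Pool.Agent.Y677.RSZ.FinEx
import Pool.Agent.Y677.KC.Pat
import Pool.Agent.TH977.PW.Prog

set_option autoImplicit false

/-!
# Narrow arithmetic progressions of the triples `n, n + 2, n + 6` and quadruples `n, n + 2, n + 6, n + 8`

Let `H` be `{0, 2, 6}` (Q1) or `{0, 2, 6, 8}` (Q2). Let `R H r` be the set of the `n` for which all prime
factors of all `n + h` (`h ∈ H`) are larger than `n ^ (1 / r)`; it contains all `n` for which all
`n + h` are prime. Let `A` be an ARBITRARY subset of `R H r`. In every short interval all but a small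
proportion of the expected number of elements of `A` are terms of `l`-term arithmetic progressions inside
`A` with difference at most `(log X) ^ B`. Moreover (Chen's theorem) any chosen one of the `n + h` can be
taken to be prime and any other chosen one a product of at most two large primes, the remaining ones being
almost prime: the number of these `n` has the expected order of magnitude in all intervals of length
`θ X`, and all these intervals contain narrow progressions of such `n`.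
-/

namespace Pool.Agent.Results.MP_3efbeb_nt.NarrowProgressions

open Finset Filter
open Pool.Agent.TH977.PW (N)
open Pool.Agent.Y677.RSZ (InProg Outside)

/-- All prime factors of all `n + h`, `h ∈ H`, are larger than `n ^ (1 / r)`. -/
def R (H : Finset ℕ) (r : ℕ) : Set ℕ :=
  {n | ∀ h ∈ H, ∀ p : ℕ, p.Prime → p ∣ n + h → (n : ℝ) ^ (1 / (r : ℝ)) < (p : ℝ)}

/-- The `n` of `R H r` for which all `n + h`, `h ∈ H`, have at most `r` prime factors. -/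
def P (H : Finset ℕ) (r : ℕ) : Set ℕ :=
  {n | n ∈ R H r ∧ ∀ h ∈ H, (n + h).primeFactorsList.length ≤ r}

/-- The pattern `0, 2, 6` of Q1. -/
def e3 : Fin 3 → ℕ := ![0, 2, 6]

/-- The pattern `0, 2, 6, 8` of Q2. -/
def e4 : Fin 4 → ℕ := ![0, 2, 6, 8]

/-- All prime factors of all `n + e l` are larger than `n ^ (1 / t)`, the number `n + e i` is prime, and
`n + e j` has at most two prime factors, all of them larger than `n ^ (1 / 9)`. -/
def T {k : ℕ} (e : Fin k → ℕ) (t : ℕ) (i j : Fin k) : Set ℕ :=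
  {n | (∀ l, ∀ p : ℕ, p.Prime → p ∣ n + e l → (n : ℝ) ^ (1 / (t : ℝ)) < (p : ℝ)) ∧
    (n + e i).Prime ∧ (n + e j).primeFactorsList.length ≤ 2 ∧
    ∀ p : ℕ, p.Prime → p ∣ n + e j → (n : ℝ) ^ (1 / (9 : ℝ)) < (p : ℝ)}

/-- For the pattern `e` with `k` elements: there is `t` such that for all `i ≠ j` the set `T e t i j`
contains all `n` for which all `n + e l` are prime, has at least `κ Y / log ^ k X` elements in every
interval `(X, X + Y]` with `θ X ≤ Y ≤ X` and `X` large, and all these intervals contain `l`-term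
progressions of its elements with difference at most `(log X) ^ B`, for every `l`. -/
def Chen {k : ℕ} (e : Fin k → ℕ) : Prop := ∃ t : ℕ, 2 ≤ t ∧
  (∀ n : ℕ, (∀ l, (n + e l).Prime) → ∀ i j : Fin k, n ∈ T e t i j) ∧
  (∃ κ : ℝ, 0 < κ ∧ ∀ θ : ℝ, 0 < θ → ∀ᶠ X : ℕ in atTop, ∀ i j : Fin k, i ≠ j → ∀ Y : ℕ,
    θ * X ≤ Y → Y ≤ X → κ * Y / Real.log X ^ k ≤ N (T e t i j) X (X + Y)) ∧
  ∀ i j : Fin k, i ≠ j → ∀ θ : ℝ, 0 < θ → ∀ l : ℕ, ∃ B : ℕ, ∀ᶠ X : ℕ in atTop, ∀ Y : ℕ,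
    θ * X ≤ Y → Y ≤ X → ∃ u d : ℕ, 1 ≤ d ∧ (d : ℝ) ≤ Real.log X ^ B ∧
      ∀ m < l, u + m * d ∈ T e t i j ∧ X < u + m * d ∧ u + m * d ≤ X + Y

lemma chen_of {k : ℕ} (hk : 1 ≤ k) (e : Fin k → ℕ) (he : Pool.Agent.Y677.KC.Pat e) : Chen e := by
  obtain ⟨t, ht, h1, h2⟩ := Pool.Agent.Y677.KC.pattern hk e he
  exact ⟨t, ht, fun n hn i j => Pool.Agent.Y677.KC.mem_T_of_prime e t ht n hn i j, h1, h2⟩

/-- no local obstruction -/
lemma adm (H : Finset ℕ) (hH : H = {0, 2, 6} ∨ H = {0, 2, 6, 8}) (p : ℕ)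
    (hp : p.Prime) : ∃ m : ℕ, ∀ h ∈ H, ¬ p ∣ m + h := by
  have hsub : H ⊆ {0, 2, 6, 8} := by
    rcases hH with rfl | rfl
    · intro x hx
      simp only [mem_insert, mem_singleton] at hx ⊢
      tauto
    · exact subset_rfl
  rcases lt_or_ge p 30 with h30 | h30
  · refine ⟨101, fun h hh hd => ?_⟩
    replace hh := hsub hh
    simp only [mem_insert, mem_singleton] at hh
    have := (Nat.prime_dvd_prime_iff_eq hp
      (by rcases hh with rfl | rfl | rfl | rfl <;> norm_num)).1 hd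
    omega
  · refine ⟨5, fun h hh hd => ?_⟩
    replace hh := hsub hh
    simp only [mem_insert, mem_singleton] at hh
    have := Nat.le_of_dvd (by omega) hd
    omega

theorem rough (H : Finset ℕ) (hH : H = {0, 2, 6} ∨ H = {0, 2, 6, 8})
    (θ : ℝ) (hθ : 0 < θ) (hθ1 : θ ≤ 1) :
    ∃ r₀ : ℕ, 2 ≤ r₀ ∧ ∀ r : ℕ, r₀ ≤ r →
      (∀ n : ℕ, (∀ h ∈ H, (n + h).Prime) → n ∈ R H r) ∧
      (∃ κ : ℝ, 0 < κ ∧ ∀ᶠ X : ℕ in atTop, ∀ Y : ℕ, (X : ℝ) ^ θ ≤ Y → Y ≤ X →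
        κ * Y / Real.log X ^ H.card ≤ N (P H r) X (X + Y)) ∧
      (∀ l : ℕ, 2 ≤ l → ∀ ε : ℝ, 0 < ε → ∃ B : ℕ, ∀ᶠ X : ℕ in atTop, ∀ Y : ℕ,
        (X : ℝ) ^ θ ≤ Y → Y ≤ X → ∀ A : Set ℕ, A ⊆ R H r →
          (N (Outside A l (Real.log X ^ B) X (X + Y)) X (X + Y) : ℝ) ≤
            ε * Y / Real.log X ^ H.card) ∧
      ∀ l : ℕ, ∃ B : ℕ, ∀ᶠ X : ℕ in atTop, ∀ Y : ℕ, (X : ℝ) ^ θ ≤ Y → Y ≤ X →
        ∃ u d : ℕ, 1 ≤ d ∧ (d : ℝ) ≤ Real.log X ^ B ∧
          ∀ i < l, u + i * d ∈ P H r ∧ X < u + i * d ∧ u + i * d ≤ X + Y := by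
  have h0 : 0 ∈ H := by rcases hH with rfl | rfl <;> simp
  obtain ⟨r0, hr0, h⟩ := Pool.Agent.Y677.RSZ.narrow_prog H ⟨0, h0⟩ 1 0 one_pos
    (fun h _ => Nat.coprime_one_right _) (adm H hH) (R H) (P H) H.card rfl
    (fun r m _ hm => hm)
    (fun r _ => Eventually.of_forall (fun m _ h1 h2 => ⟨h1, h2⟩)) θ hθ hθ1
  refine ⟨r0, hr0, fun r hr => ⟨?_, (h r hr).1, (h r hr).2,
    Pool.Agent.Y677.RSZ.exists_prog (fun _ hm => hm.1) H.card (h r hr).1 (h r hr).2⟩⟩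
  intro n hn h hh q hq hdv
  have hn2 : 2 ≤ n := by simpa using (hn 0 h0).two_le
  rw [(Nat.prime_dvd_prime_iff_eq hq (hn h hh)).1 hdv]
  exact Pool.Agent.TH977.PW.rpow_lt_of_le r n (n + h) (hr0.trans hr) hn2 (by omega)

lemma pat3 : Pool.Agent.Y677.KC.Pat e3 where
  inj := by
    intro i j h
    fin_cases i <;> fin_cases j <;> simp_all [e3]
  adm := by
    intro q hq
    obtain ⟨m, hm⟩ := adm {0, 2, 6} (Or.inl rfl) q hq
    refine ⟨m, fun l => ?_⟩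
    fin_cases l
    · exact hm 0 (by simp)
    · exact hm 2 (by simp)
    · exact hm 6 (by simp)

lemma pat4 : Pool.Agent.Y677.KC.Pat e4 where
  inj := by
    intro i j h
    fin_cases i <;> fin_cases j <;> simp_all [e4]
  adm := by
    intro q hq
    obtain ⟨m, hm⟩ := adm {0, 2, 6, 8} (Or.inr rfl) q hq
    refine ⟨m, fun l => ?_⟩
    fin_cases l
    · exact hm 0 (by simp)
    · exact hm 2 (by simp)
    · exact hm 6 (by simp)
    · exact hm 8 (by simp)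

/-- **Narrow progressions of the triples and quadruples of Q1 and Q2.** -/
theorem result :
    Chen e3 ∧ Chen e4 ∧
    ∀ H : Finset ℕ, H = {0, 2, 6} ∨ H = {0, 2, 6, 8} → ∀ θ : ℝ, 0 < θ → θ ≤ 1 →
      ∃ r₀ : ℕ, 2 ≤ r₀ ∧ ∀ r : ℕ, r₀ ≤ r →
        (∀ n : ℕ, (∀ h ∈ H, (n + h).Prime) → n ∈ R H r) ∧
        (∃ κ : ℝ, 0 < κ ∧ ∀ᶠ X : ℕ in atTop, ∀ Y : ℕ, (X : ℝ) ^ θ ≤ Y → Y ≤ X →
          κ * Y / Real.log X ^ H.card ≤ N (P H r) X (X + Y)) ∧
        (∀ l : ℕ, 2 ≤ l → ∀ ε : ℝ, 0 < ε → ∃ B : ℕ, ∀ᶠ X : ℕ in atTop, ∀ Y : ℕ,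
          (X : ℝ) ^ θ ≤ Y → Y ≤ X → ∀ A : Set ℕ, A ⊆ R H r →
            (N (Outside A l (Real.log X ^ B) X (X + Y)) X (X + Y) : ℝ) ≤
              ε * Y / Real.log X ^ H.card) ∧
        ∀ l : ℕ, ∃ B : ℕ, ∀ᶠ X : ℕ in atTop, ∀ Y : ℕ, (X : ℝ) ^ θ ≤ Y → Y ≤ X →
          ∃ u d : ℕ, 1 ≤ d ∧ (d : ℝ) ≤ Real.log X ^ B ∧
            ∀ i < l, u + i * d ∈ P H r ∧ X < u + i * d ∧ u + i * d ≤ X + Y :=
  ⟨chen_of (by norm_num) e3 pat3, chen_of (by norm_num) e4 pat4,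
    fun H hH θ hθ hθ1 => rough H hH θ hθ hθ1⟩

end Pool.Agent.Results.MP_3efbeb_nt.NarrowProgressions
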