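import Pool.Agent.Y830.MO.Fin

/-!
# The weights of Maynard and Tao are optimal among all sums of squares

Every known result on several primes among `n + h_1, …, n + h_k` (bounded gaps, Maynard-Tao,
Goldston-Pintz-Yıldırım, Selberg) is proved with a weight `w(n)` that is a square, or a sum of
squares, of a function of level `R`: a sum of functions of `n mod d`, `d ≤ R`. The Maynard-Tao
weights `(∑ λ(d_1, …, d_k))^2`, the sum over `d_i ∣ n + h_i` with `d_1 ⋯ d_k ≤ R`, are a very special
case. Maynard proved that the mean number of primes among the `n + h_i` with respect to his weights is at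
most `M(k) log R / log X`, `M(k) = k log k / (k - 1)`, and at least `(log k - C) log R / log X` for
the best choice of `λ`.

Here it is shown that no sum of squares whatsoever does better: arbitrary functions of level `R`,
arbitrary moduli (also not squarefree), arbitrary dependence on the residue classes, not only on the
divisibility of the `n + h_i`.

* Main terms (`expected / log X` is the density of the primes `n + h` with respect to `w` if the
  primes are distributed as expected in the residue classes, for example under the conjecture of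
  Elliott and Halberstam): for all `R ≤ X` the sum over `h ∈ H`, `|H| ≤ k`, is at most
  `(M(k) log R + ε log X)` times the mean value of `w`. Since `M(4) < 2`, already the main
  terms do not give two primes for triples and quadruples, whatever is known on the level
  of distribution of the primes up to the level `X` of the weight (`R ≤ √X`).
* Primes, unconditionally, in the range of the theorem of Bombieri and Vinogradov: the `w`-mean
  of the number of primes `n + h`, `h ∈ H`, is at most `M(k) log R / log X + ε`. Since `M(50) < 4`,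
  in this range (`R ≤ X^(1/4)`) no sum of squares detects two primes in a 50-tuple.

Proof. In the model of residue classes a function `V` of level `R` is decomposed, prime by prime,
into a part independent of `n mod p`, a part proportional to `1 - p 1_{p ∣ n + h}` and a rest. The
free mass at the site `h` satisfies `J(A + uB + C) ≤ J(A + B) + (p/(p-1)) J(C)`; an
induction over the primes for families of functions with weights, which ends in the inequality of
Cauchy, bounds the normalised free mass at one site by `κ` times a quadratic functional with a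
closed form, whose sum over the sites is controlled by the level inequality; the constant `κ` is
`sup_y ∑_{d ≤ R e^{-y}} 1/(d (λ - y + (k-1) log d))` over the `d` free of small primes, evaluated with
Brun's pure sieve. All this is done on each residue class modulo the primes that are
small or divide a difference of two elements of `H`.
-/

set_option autoImplicit false

open Finset

namespace Pool.Agent.Results.MP_3efbeb_nt.OptimalWeights

/-- the function `w(n) = ∑_{d ≤ Q} c_d(n mod d)` of level `Q` -/
noncomputable def weight (Q : ℕ) (c : ℕ → ℕ → ℝ) (n : ℕ) : ℝ := ∑ d ∈ Icc 1 Q, c d (n % d)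

/-- `w` is a finite sum of squares of functions of level `R` -/
def SumOfSquares (R : ℕ) (w : ℕ → ℝ) : Prop :=
  ∃ (J : ℕ) (g : ℕ → ℕ → ℕ → ℝ), ∀ n, w n = ∑ j ∈ range J, weight R (g j) n ^ 2

/-- the mean value of the weight with the coefficients `c` over the positive integers -/
noncomputable def mean (Q : ℕ) (c : ℕ → ℕ → ℝ) : ℝ :=
  ∑ d ∈ Icc 1 Q, ∑ a ∈ range d, c d a / (d : ℝ)

/-- the expected mean value of the weight over the `n` such that `n + h` is prime:
`c_d(a)` is replaced by `c_d(a)` times `1 / φ(d)` if `a + h` is coprime to `d` and by `0` if not -/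
noncomputable def expected (Q : ℕ) (c : ℕ → ℕ → ℝ) (h : ℕ) : ℝ :=
  ∑ d ∈ Icc 1 Q, ∑ a ∈ range d, (if (a + h).Coprime d then c d a / (Nat.totient d : ℝ) else 0)

/-- `s(d) = ∑_{a mod d} |c_d(a)|` -/
noncomputable def size (c : ℕ → ℕ → ℝ) (d : ℕ) : ℝ := ∑ a ∈ range d, |c d a|

/-- the weight has level `Q` with `1 ≤ Q`, `Q^2 (log X)^B ≤ X`, `∑_{d ≤ Q} s(d)^2 / d ≤ (log X)^K` and
`∑_{X < n ≤ 2X} w(n) ≥ X / (log X)^K` -/
def Good (K B X Q : ℕ) (c : ℕ → ℕ → ℝ) : Prop :=
  1 ≤ Q ∧ (Q : ℝ) ^ 2 * Real.log X ^ B ≤ X ∧ ∑ d ∈ Icc 1 Q, size c d ^ 2 / d ≤ Real.log X ^ K ∧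
    X / Real.log X ^ K ≤ ∑ n ∈ Ioc X (2 * X), weight Q c n

/-- the number of `h` in `H` such that `n + h` is prime -/
noncomputable def primes (H : Finset ℕ) (n : ℕ) : ℝ := ((H.filter (fun h => (n + h).Prime)).card : ℝ)

/-- `M(k) = k log k / (k - 1)` for `k ≥ 2`, `M(1) = 1` -/
noncomputable def M (k : ℕ) : ℝ := if k = 1 then 1 else k * Real.log k / (k - 1)

theorem M_eq (k : ℕ) : M k = k * Pool.Agent.Y830.MO.mk k := by
  unfold M Pool.Agent.Y830.MO.mk
  split_ifs with h1
  · rw [h1]; norm_num
  · ring

theorem M4 : M 4 < 2 := by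
  unfold M
  have h2 : Real.log 4 = 2 * Real.log 2 := by
    rw [← Real.log_rpow (by norm_num)]
    norm_num
  have h3 := Real.log_two_lt_d9
  norm_num
  rw [h2]
  linarith

theorem M50 : M 50 < 4 := by
  unfold M
  have h1 : Real.log 50 < 3.92 := by
    rw [Real.log_lt_iff_lt_exp (by norm_num)]
    have h2 : Real.exp 3.92 = Real.exp 1 ^ 4 * Real.exp (-0.08) := by
      rw [← Real.exp_nat_mul, ← Real.exp_add]
      norm_num
    rw [h2]
    have h3 := Real.exp_one_gt_d9
    have h4 := Real.add_one_le_exp (-0.08 : ℝ)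
    have h5 : (2.7182818283 : ℝ) ^ 4 ≤ Real.exp 1 ^ 4 :=
      pow_le_pow_left₀ (by norm_num) h3.le 4
    have h6 : (50 : ℝ) < 2.7182818283 ^ 4 * 0.92 := by norm_num
    have h7 : (2.7182818283 : ℝ) ^ 4 * 0.92 ≤ Real.exp 1 ^ 4 * Real.exp (-0.08) :=
      mul_le_mul h5 (by linarith) (by norm_num) (by positivity)
    linarith
  norm_num
  linarith

/-- (1) For `k ≥ 1` and `ε > 0` there is `X₀` such that for `X ≥ X₀`, `1 ≤ R ≤ X`, every weight `w` (of
any level `Q`) that is a sum of squares of functions of level `R` and every set `H` of at most `k`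
integers in `[0, X]` the sum of the expected values over `h ∈ H` is at most
`M(k) log R + ε log X` times the mean value of `w`.

(2) For `k ≥ 1`, `ε > 0` and `K` there are `B` and `X₀` such that for `X ≥ X₀`, `1 ≤ R ≤ X`, every good
weight `w` that is a sum of squares of functions of level `R` and every set `H` of at most `k`
integers in `[0, X]` the sum over `X < n ≤ 2X` of `w(n)` times the number of primes
`n + h`, `h ∈ H`, is at most `M(k) log R / log X + ε` times the sum of `w(n)`.

(3) `M(4) < 2` and `M(50) < 4`. -/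
theorem result :
    (∀ k : ℕ, 1 ≤ k → ∀ ε : ℝ, 0 < ε → ∃ X₀ : ℕ, ∀ (X Q R : ℕ) (H : Finset ℕ) (c : ℕ → ℕ → ℝ),
      X₀ ≤ X → 1 ≤ R → R ≤ X → H.card ≤ k → (∀ h ∈ H, h ≤ X) → SumOfSquares R (weight Q c) →
      ∑ h ∈ H, expected Q c h ≤ (M k * Real.log R + ε * Real.log X) * mean Q c) ∧
    (∀ k : ℕ, 1 ≤ k → ∀ ε : ℝ, 0 < ε → ∀ K : ℕ, ∃ B X₀ : ℕ, ∀ (X Q R : ℕ) (H : Finset ℕ)
      (c : ℕ → ℕ → ℝ), X₀ ≤ X → 1 ≤ R → R ≤ X → H.card ≤ k → (∀ h ∈ H, h ≤ X) →
      SumOfSquares R (weight Q c) → Good K B X Q c →
      ∑ n ∈ Ioc X (2 * X), weight Q c n * primes H n ≤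
        (M k * (Real.log R / Real.log X) + ε) * ∑ n ∈ Ioc X (2 * X), weight Q c n) ∧
    M 4 < 2 ∧ M 50 < 4 := by
  refine ⟨fun k hk ε hε => ?_, fun k hk ε hε K => ?_, M4, M50⟩
  · obtain ⟨X₀, h⟩ := Pool.Agent.Y830.MO.modelM k hk ε hε
    refine ⟨X₀, fun X Q R H c hX hR hRX hHk hHX hs => ?_⟩
    obtain ⟨J, g, hg⟩ := hs
    rw [M_eq]
    exact (h X hX Q R H c J g hR hRX hHk hHX hg).2
  · obtain ⟨B, X₀, h⟩ := Pool.Agent.Y830.MO.mainM k hk ε hε K
    refine ⟨B, X₀, fun X Q R H c hX hR hRX hHk hHX hs hG => ?_⟩
    obtain ⟨J, g, hg⟩ := hs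
    obtain ⟨hQ, hQX, hc, hm⟩ := hG
    rw [M_eq]
    exact h X hX Q R H c J g hQ hR hRX hQX hHk hHX hg hc hm

end Pool.Agent.Results.MP_3efbeb_nt.OptimalWeights
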