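import Pool.Agent.Y879.PR.HLc

set_option autoImplicit false

/-!
Triples `n, n + 2, n + 6` and quadruples `n, n + 2, n + 6, n + 8` at an ACTUAL prime: for a chosen
`h = 0, 2, 6` let `n + h` be prime and let the other members be almost prime. The number of such triples, the
number of such quadruples, the exact proportion of the triples which extend to a quadruple, and the Poisson
laws of the triples and quadruples which follow.
-/

namespace Pool.Agent.Results.MP_3efbeb_nt.TriplesToQuadruples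

open Finset Filter
open Pool.Agent.Y879.PR

/-- the shifts `0, 2, 6` of the triples -/
def s3 : Fin 3 → ℕ := ![0, 2, 6]

/-- the shifts `0, 2, 6, 8` of the quadruples -/
def s4 : Fin 4 → ℕ := ![0, 2, 6, 8]

/-- no `n + h i` has a prime factor `p ≤ N ^ (1 / r)` -/
def Good {k : ℕ} (h : Fin k → ℕ) (N r n : ℕ) : Prop :=
  ∀ p : ℕ, p.Prime → (p : ℝ) ≤ (N : ℝ) ^ (1 / (r : ℝ)) → ∀ i, ¬ p ∣ n + h i

/-- the product of `1 - k / p` over the primes `5 < p ≤ N ^ (1 / r)` -/
noncomputable def V (k N r : ℕ) : ℝ :=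
  ∏ p ∈ (Icc 1 ⌊(N : ℝ) ^ (1 / (r : ℝ))⌋₊).filter Nat.Prime, (1 - ((if p ∣ 30 then 0 else k : ℕ) : ℝ) / p)

open Classical in
/-- the triples: the good `n` in `(A, A + L]` for which `n + s3 i` is PRIME -/
noncomputable def Tr (N r : ℕ) (i : Fin 3) (A L : ℕ) : Finset ℕ :=
  (Ioc A (A + L)).filter (fun n => (n + s3 i).Prime ∧ Good s3 N r n)

open Classical in
/-- the quadruples: the `n` of `Tr` for which `n + 8` has no prime factor `p ≤ N ^ (1 / r)` either -/
noncomputable def Qu (N r : ℕ) (i : Fin 3) (A L : ℕ) : Finset ℕ :=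
  (Tr N r i A L).filter (fun n => ∀ p : ℕ, p.Prime → (p : ℝ) ≤ (N : ℝ) ^ (1 / (r : ℝ)) → ¬ p ∣ n + 8)

open Classical in
/-- the number of the good `l` in `(n, n + 30 T]` with `l = n` modulo `30` -/
noncomputable def Next {k : ℕ} (h : Fin k → ℕ) (N r T n : ℕ) : ℕ :=
  ((Ioc n (n + 30 * T)).filter (fun l => l % 30 = n % 30 ∧ Good h N r l)).card

/-- the Poisson law of mean `x`, up to `ε`, for the values of `f` at the elements of `S` -/
def Law (S : Finset ℕ) (f : ℕ → ℕ) (x ε : ℝ) : Prop :=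
  ∀ B : Finset ℕ, |((S.filter (fun n => f n ∈ B)).card : ℝ) -
    S.card * ∑ j ∈ B, Real.exp (-x) * x ^ j / j.factorial| ≤ ε * S.card

lemma split4 (i : Fin 4) : i = 0 ∨ i = 1 ∨ i = 2 ∨ i = 3 := by fin_cases i <;> simp

lemma split3 (i : Fin 3) : i = 0 ∨ i = 1 ∨ i = 2 := by fin_cases i <;> simp

lemma qu_eq (N r : ℕ) (i : Fin 3) (A L : ℕ) : Qu N r i A L = PP qa N r i.castSucc A L := by
  classical
  ext n
  have hi : qa i.castSucc = s3 i := by
    rcases split3 i with rfl | rfl | rfl <;> rfl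
  simp only [Qu, Tr, PP, Finset.mem_filter, Good, PG]
  rw [hi]
  constructor
  · rintro ⟨⟨h1, h2, h3⟩, h4⟩
    refine ⟨h1, h2, ?_⟩
    intro p hp hpz j
    rcases split4 j with rfl | rfl | rfl | rfl
    · exact h3 p hp hpz 0
    · exact h3 p hp hpz 1
    · exact h3 p hp hpz 2
    · exact h4 p hp hpz
  · rintro ⟨h1, h2, h3⟩
    refine ⟨⟨h1, h2, ?_⟩, ?_⟩
    · intro p hp hpz j
      rcases split3 j with rfl | rfl | rfl
      · exact h3 p hp hpz 0
      · exact h3 p hp hpz 1
      · exact h3 p hp hpz 2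
    · intro p hp hpz
      exact h3 p hp hpz 3

/-- the quotient of two asymptotic quantities -/
lemma quot (a b A B ε : ℝ) (hε : 0 < ε) (hε1 : ε ≤ 1) (hA : 0 < A) (hB : 0 < B)
    (h1 : |a - A| ≤ ε / 8 * A) (h2 : |b - B| ≤ ε / 8 * B) : |b / a - B / A| ≤ ε * (B / A) := by
  obtain ⟨a1, a2⟩ := abs_le.1 h1
  obtain ⟨b1, b2⟩ := abs_le.1 h2
  have hεA : ε * A ≤ A := by
    calc ε * A ≤ 1 * A := mul_le_mul_of_nonneg_right hε1 hA.le
      _ = A := one_mul _
  have ha : 7 / 8 * A ≤ a := by linarith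
  have ha0 : 0 < a := by linarith
  rw [show b / a - B / A = (b * A - B * a) / (a * A) by field_simp, abs_div,
    abs_of_pos (by positivity : 0 < a * A), div_le_iff₀ (by positivity)]
  have e : ε * (B / A) * (a * A) = ε * B * a := by field_simp
  rw [e]
  have h3 : |b * A - B * a| ≤ |b - B| * A + B * |a - A| := by
    calc |b * A - B * a| = |(b - B) * A - B * (a - A)| := by ring_nf
      _ ≤ |(b - B) * A| + |B * (a - A)| := abs_sub _ _
      _ = _ := by rw [abs_mul, abs_mul, abs_of_pos hA, abs_of_pos hB]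
  have h4 : |b - B| * A ≤ ε / 8 * B * A := mul_le_mul_of_nonneg_right h2 hA.le
  have h5 : B * |a - A| ≤ B * (ε / 8 * A) := mul_le_mul_of_nonneg_left h1 hB.le
  have h6 : ε * B * (7 / 8 * A) ≤ ε * B * a := mul_le_mul_of_nonneg_left ha (by positivity)
  have h7 : 0 < ε * B * A := by positivity
  have e1 : ε / 8 * B * A = 1 / 8 * (ε * B * A) := by ring
  have e2 : B * (ε / 8 * A) = 1 / 8 * (ε * B * A) := by ring
  have e3 : ε * B * (7 / 8 * A) = 7 / 8 * (ε * B * A) := by ring
  linarith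

/-- **Triples and quadruples at an actual prime.** Let `D` and `E` be the Hardy-Littlewood constants of the
triples and of the quadruples. For all `θ > 0`, `0 < δ ≤ 1`, `0 < ε ≤ 1` and `x₀` there is `r₀` such that for
every `r ≥ r₀` and all large `N`: (1) if `n > N ^ (1 / r)` and `n, n + 2, n + 6` are prime, then `n` is a good
triple, and if `n + 8` is prime, too, a good quadruple; (2) the members of a good triple or quadruple `n ≤ N`
have at most `r` prime factors; (3) for each `i` the number of triples up to `N` with `n + s3 i` PRIME is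
`(1 + η) D (r e ^ (-γ)) ^ 2 N / log N ^ 3`, the number of quadruples among them is
`(1 + η) E (r e ^ (-γ)) ^ 3 N / log N ^ 4`, and the proportion of the triples which extend to a quadruple is
`(1 + η) (E / D) r e ^ (-γ) / log N`, `|η| ≤ ε`; (4) if `X ≥ N ^ θ`, `L ≥ δ X` and `A + L ≤ X`, the number of
the triples which follow a triple of `(A, A + L]` with `n + s3 i` PRIME has the Poisson law, and likewise for
the quadruples. -/
theorem result : ∃ D E : ℝ, 0 < D ∧ 0 < E ∧
    Tendsto (fun N : ℕ => (9 / 2 : ℝ) * ∏ p ∈ (Finset.range N).filter (fun p => p.Prime ∧ 3 < p),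
      ((p : ℝ) ^ 2 * ((p : ℝ) - 3) / ((p : ℝ) - 1) ^ 3)) atTop (nhds D) ∧
    Tendsto (fun N : ℕ => (27 / 2 : ℝ) * ∏ p ∈ (Finset.range N).filter (fun p => p.Prime ∧ 3 < p),
      ((p : ℝ) ^ 3 * ((p : ℝ) - 4) / ((p : ℝ) - 1) ^ 4)) atTop (nhds E) ∧
    ∀ θ δ x₀ ε : ℝ, 0 < θ → 0 < δ → δ ≤ 1 → 0 < ε → ε ≤ 1 →
    ∃ r₀ : ℕ, ∀ r : ℕ, r₀ ≤ r → ∃ N₀ : ℕ, ∀ N : ℕ, N₀ ≤ N →
      (∀ n : ℕ, (N : ℝ) ^ (1 / (r : ℝ)) < n → n.Prime → (n + 2).Prime → (n + 6).Prime →
        Good s3 N r n ∧ ((n + 8).Prime → Good s4 N r n)) ∧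
      (∀ n : ℕ, n ≤ N → (Good s3 N r n → ∀ i, (n + s3 i).primeFactorsList.length ≤ r) ∧
        (Good s4 N r n → ∀ i, (n + s4 i).primeFactorsList.length ≤ r)) ∧
      ∀ i : Fin 3,
        (|((Tr N r i 0 N).card : ℝ) * Real.log N ^ 3 / N -
            D * (r * Real.exp (-Real.eulerMascheroniConstant)) ^ 2| ≤
          ε * (D * (r * Real.exp (-Real.eulerMascheroniConstant)) ^ 2)) ∧
        (|((Qu N r i 0 N).card : ℝ) * Real.log N ^ 4 / N -
            E * (r * Real.exp (-Real.eulerMascheroniConstant)) ^ 3| ≤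
          ε * (E * (r * Real.exp (-Real.eulerMascheroniConstant)) ^ 3)) ∧
        (|((Qu N r i 0 N).card : ℝ) / (Tr N r i 0 N).card * Real.log N -
            E / D * (r * Real.exp (-Real.eulerMascheroniConstant))| ≤
          ε * (E / D * (r * Real.exp (-Real.eulerMascheroniConstant)))) ∧
        ∀ X : ℕ, (N : ℝ) ^ θ ≤ X → ∀ A L : ℕ, δ * X ≤ L → A + L ≤ X → ∀ T : ℕ,
          (T * V 3 N r ≤ x₀ → Law (Tr N r i A L) (Next s3 N r T) (T * V 3 N r) ε) ∧
          (T * V 4 N r ≤ x₀ → Law (Qu N r i A L) (Next s4 N r T) (T * V 4 N r) ε) := by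
  obtain ⟨S, hS0, hS⟩ := HF_lim 3 (Or.inl rfl)
  obtain ⟨S', hS0', hS'⟩ := HF_lim 4 (Or.inr rfl)
  refine ⟨9 / 2 * S, 27 / 2 * S', by positivity, by positivity, ?_, ?_, ?_⟩
  · refine (hS.const_mul (9 / 2)).congr ?_
    intro N
    unfold HF
    congr 1
    apply Finset.prod_congr rfl
    intro p hp
    simp only [Finset.mem_filter] at hp
    have h3 : (3 : ℝ) < p := by exact_mod_cast hp.2.2
    unfold hf
    rw [Nat.cast_ofNat]
    have h0 : (p : ℝ) ≠ 0 := by positivity
    have h1 : (p : ℝ) - 1 ≠ 0 := by linarith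
    field_simp
  · refine (hS'.const_mul (27 / 2)).congr ?_
    intro N
    unfold HF
    congr 1
    apply Finset.prod_congr rfl
    intro p hp
    simp only [Finset.mem_filter] at hp
    have h3 : (3 : ℝ) < p := by exact_mod_cast hp.2.2
    unfold hf
    rw [Nat.cast_ofNat]
    have h0 : (p : ℝ) ≠ 0 := by positivity
    have h1 : (p : ℝ) - 1 ≠ 0 := by linarith
    field_simp
  intro θ δ x₀ ε hθ hδ hδ1 hε hε1
  obtain ⟨r1, hr1, hlaw⟩ := pat_main pat_ta (by simp) θ δ hθ hδ hδ1 x₀ ε hε hε1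
  obtain ⟨r2, -, hlaw'⟩ := pat_main pat_qa (by simp) θ δ hθ hδ hδ1 x₀ ε hε hε1
  obtain ⟨r3, -, hform⟩ := hl_form pat_ta (by simp) (Or.inl rfl) S hS0 hS (ε / 8) (by positivity)
    (by linarith)
  obtain ⟨r4, -, hform'⟩ := hl_form pat_qa (by simp) (Or.inr rfl) S' hS0' hS' (ε / 8) (by positivity)
    (by linarith)
  refine ⟨max (max r1 r2) (max r3 r4), ?_⟩
  intro r hr
  have hq1 : r1 ≤ r := ((le_max_left _ _).trans (le_max_left _ _)).trans hr
  have hq2 : r2 ≤ r := ((le_max_right _ _).trans (le_max_left _ _)).trans hr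
  have hq3 : r3 ≤ r := ((le_max_left _ _).trans (le_max_right _ _)).trans hr
  have hq4 : r4 ≤ r := ((le_max_right _ _).trans (le_max_right _ _)).trans hr
  have hr0 : (0 : ℝ) < r := by exact_mod_cast (by omega : 0 < r)
  obtain ⟨N1, hN1⟩ := hlaw r hq1
  obtain ⟨N2, hN2⟩ := hlaw' r hq2
  obtain ⟨N3, hN3⟩ := eventually_atTop.1 ((hform r hq3).and ((hform' r hq4).and (eventually_ge_atTop 3)))
  refine ⟨max (max N1 N2) N3, ?_⟩
  intro N hN
  obtain ⟨h1, h2, h3, h4, h5, h6⟩ := hN1 N (((le_max_left _ _).trans (le_max_left _ _)).trans hN)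
  obtain ⟨g1, g2, g3, g4, g5, g6⟩ := hN2 N (((le_max_right _ _).trans (le_max_left _ _)).trans hN)
  obtain ⟨h7, h8, hN33⟩ := hN3 N ((le_max_right _ _).trans hN)
  refine ⟨?_, ?_, ?_⟩
  · intro n hn p0 p2 p6
    constructor
    · refine h2 n hn ?_
      intro i
      rcases split3 i with rfl | rfl | rfl
      · exact p0
      · exact p2
      · exact p6
    · intro p8
      refine g2 n hn ?_
      intro i
      rcases split4 i with rfl | rfl | rfl | rfl
      · exact p0
      · exact p2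
      · exact p6
      · exact p8
  · intro n hn
    exact ⟨fun hg => h1 n hn hg, fun hg => g1 n hn hg⟩
  · intro i
    have hNr : (3 : ℝ) ≤ N := by exact_mod_cast hN33
    have hN0 : (0 : ℝ) < N := by linarith
    have hlog : 0 < Real.log N := Real.log_pos (by linarith)
    obtain ⟨c, hc⟩ : ∃ c, c = (r : ℝ) * Real.exp (-Real.eulerMascheroniConstant) := ⟨_, rfl⟩
    have hc0 : 0 < c := by
      rw [hc]
      have := Real.exp_pos (-Real.eulerMascheroniConstant)
      positivity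
    have hTr : Tr N r i 0 N = PP ta N r i 0 N := rfl
    have a1 := h7 i
    have a2 := h8 i.castSucc
    rw [← hTr, ← hc] at a1
    rw [← qu_eq, ← hc] at a2
    have e1 : ((({11, 17} : Finset ℕ).card : ℕ) : ℝ) / 30 * (3 ^ 3 * (5 / (5 - ((3 : ℕ) : ℝ))) * S *
        c ^ (3 - 1)) = 9 / 2 * S * c ^ 2 := by
      rw [show ({11, 17} : Finset ℕ).card = 2 from rfl]
      norm_num
      ring
    have e2 : ((({11} : Finset ℕ).card : ℕ) : ℝ) / 30 * (3 ^ 4 * (5 / (5 - ((4 : ℕ) : ℝ))) * S' *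
        c ^ (4 - 1)) = 27 / 2 * S' * c ^ 3 := by
      rw [show ({11} : Finset ℕ).card = 1 from rfl]
      norm_num
      ring
    rw [e1] at a1
    rw [e2] at a2
    rw [← hc]
    have hD : 0 < 9 / 2 * S * c ^ 2 := by positivity
    have hE : 0 < 27 / 2 * S' * c ^ 3 := by positivity
    refine ⟨a1.trans (mul_le_mul_of_nonneg_right (by linarith) hD.le),
      a2.trans (mul_le_mul_of_nonneg_right (by linarith) hE.le), ?_, ?_⟩
    · have a3 := quot _ _ _ _ ε hε hε1 hD hE a1 a2
      have e3 : 27 / 2 * S' * c ^ 3 / (9 / 2 * S * c ^ 2) = 27 / 2 * S' / (9 / 2 * S) * c := by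
        field_simp
      have e4 : ((Qu N r i 0 N).card : ℝ) * Real.log N ^ 4 / N /
          (((Tr N r i 0 N).card : ℝ) * Real.log N ^ 3 / N) =
          ((Qu N r i 0 N).card : ℝ) / (Tr N r i 0 N).card * Real.log N := by
        have hTr0 : (0 : ℝ) < ((Tr N r i 0 N).card : ℝ) := by
          have b1 := (abs_le.1 a1).1
          have b2 : ε / 8 * (9 / 2 * S * c ^ 2) ≤ 1 / 8 * (9 / 2 * S * c ^ 2) :=
            mul_le_mul_of_nonneg_right (by linarith) hD.le
          have b3 : 0 < ((Tr N r i 0 N).card : ℝ) * Real.log N ^ 3 / N := by linarith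
          by_contra hcon
          have b4 : ((Tr N r i 0 N).card : ℝ) = 0 :=
            le_antisymm (not_lt.1 hcon) (Nat.cast_nonneg _)
          rw [b4, zero_mul, zero_div] at b3
          exact lt_irrefl _ b3
        field_simp
      rw [e3, e4] at a3
      exact a3
    · intro X hX A L hL hAL T
      constructor
      · intro hT B
        exact (h6 i X hX A L hL hAL).2 T hT B
      · intro hT B
        rw [qu_eq]
        exact (g6 i.castSucc X hX A L hL hAL).2 T hT B

end Pool.Agent.Results.MP_3efbeb_nt.TriplesToQuadruples
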